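import Pool.Agent.Helper51.PP.Spec

/-!
# Swarm PC (MP_b460e8_pr): part GEO1 (the chain of a configuration is reversible)
-/

set_option autoImplicit false

namespace Pool.Agent.Helper22.PC.GEO1

open Pool.Agent.Helper51.PP

theorem dirVec_revD {d : ℕ} (e : Fin d × Bool) : dirVec (revD e) = -dirVec e := by
  rcases e with ⟨i, b⟩
  cases b <;> simp [dirVec, revD]

theorem gap_spec {d : ℕ} {ω : Conf d} (hω : Good ω) (v : Fin d → ℤ) (e : Fin d × Bool) :
    1 ≤ gap ω v e ∧ ω (v + (gap ω v e : ℤ) • dirVec e) = true :=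
  Nat.sInf_mem (s := {k : ℕ | 1 ≤ k ∧ ω (v + (k : ℤ) • dirVec e) = true}) (hω v e)

theorem gap_le {d : ℕ} {ω : Conf d} (v : Fin d → ℤ) (e : Fin d × Bool) (k : ℕ)
    (hk : 1 ≤ k) (h : ω (v + (k : ℤ) • dirVec e) = true) : gap ω v e ≤ k :=
  Nat.sInf_le (s := {k : ℕ | 1 ≤ k ∧ ω (v + (k : ℤ) • dirVec e) = true}) ⟨hk, h⟩

theorem gap_back {d : ℕ} {ω : Conf d} (hω : Good ω) (v : Fin d → ℤ) (hv : ω v = true)
    (e : Fin d × Bool) : gap ω (nextPt ω v e) (revD e) = gap ω v e := by
  obtain ⟨h1, h2⟩ := gap_spec hω v e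
  obtain ⟨g1, g2⟩ := gap_spec hω (nextPt ω v e) (revD e)
  apply le_antisymm
  · apply gap_le _ _ _ h1
    have : nextPt ω v e + (gap ω v e : ℤ) • dirVec (revD e) = v := by
      rw [dirVec_revD, nextPt]
      simp
    rw [this]
    exact hv
  · by_contra hlt
    push Not at hlt
    set j := gap ω (nextPt ω v e) (revD e) with hj
    have hge : gap ω v e ≤ gap ω v e - j := by
      apply gap_le
      · omega
      · have : v + ((gap ω v e - j : ℕ) : ℤ) • dirVec e
            = nextPt ω v e + (j : ℤ) • dirVec (revD e) := by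
          rw [dirVec_revD, nextPt, Nat.cast_sub hlt.le, sub_smul, smul_neg]
          abel
        rw [this]
        exact g2
    omega

theorem nextPt_back {d : ℕ} {ω : Conf d} (hω : Good ω) (v : Fin d → ℤ) (hv : ω v = true)
    (e : Fin d × Bool) : nextPt ω (nextPt ω v e) (revD e) = v := by
  have h := gap_back hω v hv e
  conv_lhs => rw [nextPt]
  rw [h, dirVec_revD, nextPt]
  simp

theorem main : S_GEO1 := by
  intro d ω hω
  refine ⟨?_, ?_⟩
  · rintro ⟨i, b⟩
    simp [revD]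
  · rintro ⟨v, hv⟩ e
    apply Subtype.ext
    exact nextPt_back hω v hv e

end Pool.Agent.Helper22.PC.GEO1
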