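import Pool.Agent.Helper51.PP.Spec

/-!
# Swarm PC (MP_b460e8_pr): part MART (the martingale part)
-/

set_option autoImplicit false

namespace Pool.Agent.Helper22.PC.MART

open Filter Topology
open Pool.Agent.Helper51.PP

/-- the error bound after choosing `θ = 1/√n` -/
theorem key {X E : Type} [Fintype E] [Nonempty E] (h1 : S_CFE) (nx : X → E → X) (x0 : X)
    (m : X → E → ℝ) (hm : ∀ x, Reach nx x0 x → ∑ e, m x e = 0) (σ2 K : ℝ) (hσ : 0 ≤ σ2)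
    (hK : ∀ n : ℕ, SR nx (Vf m) n x0 ≤ K * n) (h : X → ℝ) (H G δ : ℝ) (hH : ∀ x, |h x| ≤ H)
    (hG : 0 ≤ G) 
    (hD : ∀ n : ℕ, SR nx (fun x => |Vf m x - σ2 - (h x - PR nx h x)|) n x0 ≤ δ * n)
    (hT : ∀ n : ℕ, SR nx (Tf m G) n x0 ≤ δ * n) (n : ℕ) (hn : 1 ≤ n) :
    ‖CF nx m ((√(n : ℝ))⁻¹) n x0 - ((Real.exp (-(σ2 / 2)) : ℝ) : ℂ)‖ ≤
      (5 / 2) * δ + (n : ℝ)⁻¹ * (3 / 2 * H + σ2 ^ 2 / 8)
        + (√(n : ℝ))⁻¹ * (H / 4 * (1 + |K|) + G / 6 * |K|) := by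
  classical
  have hn0 : (0 : ℝ) < n := by exact_mod_cast hn
  set t : ℝ := (√(n : ℝ))⁻¹ with ht
  have ht0 : 0 ≤ t := by positivity
  have ht2 : t ^ 2 = (n : ℝ)⁻¹ := by
    rw [ht, inv_pow, Real.sq_sqrt hn0.le]
  have htn : t ^ 2 * n = 1 := by
    rw [ht2]; field_simp
  have hH0 : 0 ≤ H := le_trans (abs_nonneg _) (hH x0)
  have hS := h1 nx {x | Reach nx x0 x} (fun x hx e => Reach.step x e hx) m
    (fun x hx => hm x hx) G hG σ2 hσ h H (fun x _ => hH x)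
    (fun x => |Vf m x - σ2 - (h x - PR nx h x)|) (fun x _ => le_rfl) n t ht0 x0
    (Reach.refl)
  have hexp : ((Real.exp (-(t ^ 2 * σ2 / 2)) : ℝ) : ℂ) ^ n =
      ((Real.exp (-(σ2 / 2)) : ℝ) : ℂ) := by
    rw [← Complex.ofReal_pow, ← Real.exp_nat_mul]
    congr 2
    have : (n : ℝ) * -(t ^ 2 * σ2 / 2) = -((t ^ 2 * n) * σ2 / 2) := by ring
    rw [this, htn, one_mul]
  rw [hexp] at hS
  refine hS.trans ?_
  have hKn : SR nx (Vf m) n x0 ≤ |K| * n :=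
    (hK n).trans (mul_le_mul_of_nonneg_right (le_abs_self K) hn0.le)
  have e1 : t ^ 2 / 2 * SR nx (fun x => |Vf m x - σ2 - (h x - PR nx h x)|) n x0 ≤ δ / 2 := by
    calc t ^ 2 / 2 * SR nx (fun x => |Vf m x - σ2 - (h x - PR nx h x)|) n x0
        ≤ t ^ 2 / 2 * (δ * n) := mul_le_mul_of_nonneg_left (hD n) (by positivity)
      _ = (t ^ 2 * n) * δ / 2 := by ring
      _ = δ / 2 := by rw [htn]; ring
  have e2 : 2 * t ^ 2 * SR nx (Tf m G) n x0 ≤ 2 * δ := by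
    calc 2 * t ^ 2 * SR nx (Tf m G) n x0
        ≤ 2 * t ^ 2 * (δ * n) := mul_le_mul_of_nonneg_left (hT n) (by positivity)
      _ = (t ^ 2 * n) * (2 * δ) := by ring
      _ = 2 * δ := by rw [htn]; ring
  have e3 : t ^ 3 / 4 * H * (n + SR nx (Vf m) n x0) ≤ t * (H / 4 * (1 + |K|)) := by
    calc t ^ 3 / 4 * H * (n + SR nx (Vf m) n x0)
        ≤ t ^ 3 / 4 * H * (n + |K| * n) :=
          mul_le_mul_of_nonneg_left (by linarith) (by positivity)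
      _ = (t ^ 2 * n) * (t * (H / 4 * (1 + |K|))) := by ring
      _ = t * (H / 4 * (1 + |K|)) := by rw [htn]; ring
  have e4 : t ^ 3 * G / 6 * SR nx (Vf m) n x0 ≤ t * (G / 6 * |K|) := by
    calc t ^ 3 * G / 6 * SR nx (Vf m) n x0
        ≤ t ^ 3 * G / 6 * (|K| * n) :=
          mul_le_mul_of_nonneg_left hKn (by positivity)
      _ = (t ^ 2 * n) * (t * (G / 6 * |K|)) := by ring
      _ = t * (G / 6 * |K|) := by rw [htn]; ring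
  have e5 : 3 * t ^ 2 / 2 * H = (n : ℝ)⁻¹ * (3 / 2 * H) := by rw [ht2]; ring
  have e6 : (n : ℝ) * t ^ 4 * σ2 ^ 2 / 8 = (n : ℝ)⁻¹ * (σ2 ^ 2 / 8) := by
    calc (n : ℝ) * t ^ 4 * σ2 ^ 2 / 8 = (t ^ 2 * n) * (t ^ 2 * (σ2 ^ 2 / 8)) := by ring
      _ = (n : ℝ)⁻¹ * (σ2 ^ 2 / 8) := by rw [htn, ht2]; ring
  calc _ ≤ δ / 2 + (n : ℝ)⁻¹ * (3 / 2 * H) + t * (H / 4 * (1 + |K|)) + t * (G / 6 * |K|)
        + 2 * δ + (n : ℝ)⁻¹ * (σ2 ^ 2 / 8) := by linarith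
    _ = _ := by ring

theorem main (h1 : S_CFE) (_h2 : S_CONG) : S_MART := by
  intro X E _ _ nx x0 m hm σ2 K hσ hK h H G hH hG hD hT
  rw [Metric.tendsto_atTop]
  intro ε hε
  obtain ⟨k, hk1, hk2, hk3⟩ : ∃ k : ℕ,
      (∀ n : ℕ, SR nx (fun x => |Vf m x - σ2 - (h k x - PR nx (h k) x)|) n x0
        ≤ (1 / 2) ^ k * n) ∧ (∀ n : ℕ, SR nx (Tf m (G k)) n x0 ≤ (1 / 2) ^ k * n) ∧
      ((1 / 2 : ℝ)) ^ k < ε / 5 := by
    have hlim : ∀ᶠ k : ℕ in atTop, ((1 / 2 : ℝ)) ^ k < ε / 5 :=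
      (tendsto_pow_atTop_nhds_zero_of_lt_one (by norm_num) (by norm_num)).eventually_lt_const
        (by positivity)
    exact (hD.and (hT.and hlim)).exists
  have hlim2 : Tendsto (fun n : ℕ => (n : ℝ)⁻¹ * (3 / 2 * H k + σ2 ^ 2 / 8)
        + (√(n : ℝ))⁻¹ * (H k / 4 * (1 + |K|) + G k / 6 * |K|)) atTop (𝓝 0) := by
    have l1 : Tendsto (fun n : ℕ => (n : ℝ)⁻¹) atTop (𝓝 0) :=
      tendsto_inv_atTop_nhds_zero_nat
    have l2 : Tendsto (fun n : ℕ => (√(n : ℝ))⁻¹) atTop (𝓝 0) :=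
      tendsto_inv_atTop_zero.comp
        (Real.tendsto_sqrt_atTop.comp tendsto_natCast_atTop_atTop)
    have := (l1.mul_const (3 / 2 * H k + σ2 ^ 2 / 8)).add
      (l2.mul_const (H k / 4 * (1 + |K|) + G k / 6 * |K|))
    simpa using this
  obtain ⟨N, hN⟩ := eventually_atTop.1 ((hlim2.eventually_lt_const
    (show (0 : ℝ) < ε / 2 by positivity)).and (eventually_ge_atTop 1))
  refine ⟨N, fun n hn => ?_⟩
  obtain ⟨h3, h4⟩ := hN n hn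
  rw [dist_eq_norm]
  have := key h1 nx x0 m hm σ2 K hσ hK (h k) (H k) (G k) ((1 / 2) ^ k) (hH k) (hG k)
    hk1 hk2 n h4
  linarith

end Pool.Agent.Helper22.PC.MART
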